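import Pool.Agent.H17.SR3

namespace Pool.Agent.Results.MP_60b600_ag.NotLocClosed
open Pool.Agent.H17.SR

theorem result : ∃ (n d m : ℕ) (F : MvPolynomial (Fin n) (MvPolynomial (Fin m) ℂ)),
    1 ≤ n ∧ 2 ≤ d ∧ (∀ s : Fin m → ℂ, (member F s).totalDegree = d) ∧
    ¬ ∃ I J : Ideal (MvPolynomial (Fin m) ℂ),
      {t : Fin m → ℂ | ∀ s, rank (member F s) ≤ rank (member F t)} =
        MvPolynomial.zeroLocus ℂ I \ MvPolynomial.zeroLocus ℂ J := by
  refine ⟨8, 3, 2, fam, by norm_num, by norm_num, fun s => ?_, ?_⟩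
  · rw [member_fam, deg_P]
  · rw [locus_eq]
    exact not_lc

end Pool.Agent.Results.MP_60b600_ag.NotLocClosed
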